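import Pool.Agent.L7h3.CE.Stm
import Pool.Agent.Helper391.Lg.P_countable_of_conn

/-! Project CE (helper3, MP_7f38c2_co): part HAM, the final assembly: the successor function of the
Euler theorem gives a Hamilton circle of the line graph. -/

namespace Pool.Agent.L7h60.CE
open Set Pool.Agent.Helper391.Lg Pool.Agent.L7h3.CE

universe u

section gen
variable {E V : Type*} {ends : E → Sym2 V}

theorem mem_fin (z : Sym2 V) : {x | x ∈ z}.Finite := by
  induction z using Sym2.ind with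
  | _ a b =>
    refine (Set.toFinite {a, b}).subset ?_
    intro x hx
    simpa using hx

theorem mem_ex (z : Sym2 V) : ∃ x, x ∈ z := by
  induction z using Sym2.ind with
  | _ a b => exact ⟨a, by simp⟩

/-- the edges which have a common vertex with `e` -/
theorem touch_fin (hfin : ∀ v, {e | v ∈ ends e}.Finite) (e : E) :
    {f | ∃ x, x ∈ ends e ∧ x ∈ ends f}.Finite := by
  have h : {f | ∃ x, x ∈ ends e ∧ x ∈ ends f} = ⋃ x ∈ {x | x ∈ ends e}, {f | x ∈ ends f} := by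
    ext f; simp
  rw [h]
  exact Set.Finite.biUnion (mem_fin _) (fun x _ => hfin x)

theorem no_fin [Infinite E] (hfin : ∀ v, {e | v ∈ ends e}.Finite) {succ : E → E}
    (h3 : ∀ Y : Set E, Y.Nonempty → Yᶜ.Nonempty → (∀ e, e ∈ Y ↔ succ e ∈ Y) →
      ¬ {p : E × E | p.1 ∈ Y ∧ p.2 ∉ Y ∧ ∃ x, x ∈ ends p.1 ∧ x ∈ ends p.2}.Finite)
    (Y : Set E) (hY : Y.Finite) (hne : Y.Nonempty) : ¬ (∀ e, e ∈ Y ↔ succ e ∈ Y) := by
  intro h
  refine h3 Y hne hY.infinite_compl.nonempty h ?_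
  refine (hY.prod (hY.biUnion (fun e _ => touch_fin hfin e))).subset ?_
  rintro ⟨a, b⟩ ⟨ha, _, hx⟩
  exact ⟨ha, Set.mem_biUnion ha hx⟩

theorem succ_ne [Infinite E] (hfin : ∀ v, {e | v ∈ ends e}.Finite) {succ : E → E}
    (hinj : Function.Injective succ)
    (h3 : ∀ Y : Set E, Y.Nonempty → Yᶜ.Nonempty → (∀ e, e ∈ Y ↔ succ e ∈ Y) →
      ¬ {p : E × E | p.1 ∈ Y ∧ p.2 ∉ Y ∧ ∃ x, x ∈ ends p.1 ∧ x ∈ ends p.2}.Finite)
    (e : E) : succ e ≠ e := by
  intro h
  refine no_fin hfin h3 {e} (Set.finite_singleton e) ⟨e, rfl⟩ ?_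
  intro f
  constructor
  · intro hf
    have hf' : f = e := hf
    rw [hf']
    exact h
  · intro hf
    have hf' : succ f = e := hf
    exact hinj (hf'.trans h.symm)

theorem succ2_ne [Infinite E] (hfin : ∀ v, {e | v ∈ ends e}.Finite) {succ : E → E}
    (hinj : Function.Injective succ)
    (h3 : ∀ Y : Set E, Y.Nonempty → Yᶜ.Nonempty → (∀ e, e ∈ Y ↔ succ e ∈ Y) →
      ¬ {p : E × E | p.1 ∈ Y ∧ p.2 ∉ Y ∧ ∃ x, x ∈ ends p.1 ∧ x ∈ ends p.2}.Finite)
    (e : E) : succ (succ e) ≠ e := by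
  intro h
  refine no_fin hfin h3 {e, succ e} (Set.toFinite _) ⟨e, by simp⟩ ?_
  intro f
  simp only [Set.mem_insert_iff, Set.mem_singleton_iff]
  constructor
  · rintro (hf | hf)
    · right; rw [hf]
    · left; rw [hf]; exact h
  · rintro (hf | hf)
    · right; exact hinj (hf.trans h.symm)
    · left; exact hinj hf

/-- the graph of `succ` -/
def cyc (succ : E → E) : SimpleGraph E := SimpleGraph.fromRel (fun e f => f = succ e)

theorem cyc_adj {succ : E → E} {a b : E} :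
    (cyc succ).Adj a b ↔ a ≠ b ∧ (b = succ a ∨ a = succ b) := by
  unfold cyc
  rw [SimpleGraph.fromRel_adj]

theorem cyc_deg {succ : E → E} (hb : Function.Bijective succ) (h1 : ∀ e, succ e ≠ e)
    (h2 : ∀ e, succ (succ e) ≠ e) (v : E) : ((cyc succ).neighborSet v).ncard = 2 := by
  obtain ⟨w, hw⟩ := hb.surjective v
  have h : (cyc succ).neighborSet v = {succ v, w} := by
    ext f
    rw [SimpleGraph.mem_neighborSet, cyc_adj]
    simp only [Set.mem_insert_iff, Set.mem_singleton_iff]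
    constructor
    · rintro ⟨_, hf | hf⟩
      · left; exact hf
      · right; exact hb.injective (hf.symm.trans hw.symm)
    · rintro (hf | hf)
      · rw [hf]; exact ⟨(h1 v).symm, Or.inl rfl⟩
      · rw [hf]
        refine ⟨?_, Or.inr hw.symm⟩
        intro hvw
        exact h1 w (hw.trans hvw)
  rw [h]
  refine Set.ncard_pair ?_
  intro h'
  apply h2 w
  rw [hw]
  exact h'

theorem cyc_meet {succ : E → E} (H : SimpleGraph E)
    (hH : ∀ e f, e ≠ f → (∃ x, x ∈ ends e ∧ x ∈ ends f) → H.Adj e f)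
    (h3 : ∀ Y : Set E, Y.Nonempty → Yᶜ.Nonempty → (∀ e, e ∈ Y ↔ succ e ∈ Y) →
      ¬ {p : E × E | p.1 ∈ Y ∧ p.2 ∉ Y ∧ ∃ x, x ∈ ends p.1 ∧ x ∈ ends p.2}.Finite)
    (X : Set E) (hX : X.Nonempty) (hX' : Xᶜ.Nonempty) (hb : (bd H X).Finite) :
    ∃ x ∈ X, ∃ y, y ∉ X ∧ (cyc succ).Adj x y := by
  by_contra hcon
  have hc : ∀ x ∈ X, ∀ y, y ∉ X → ¬ (cyc succ).Adj x y := by
    intro x hx y hy hxy
    exact hcon ⟨x, hx, y, hy, hxy⟩
  have hcl : ∀ e, e ∈ X ↔ succ e ∈ X := by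
    intro e
    constructor
    · intro he
      by_contra hs
      refine hc e he _ hs (cyc_adj.2 ⟨?_, Or.inl rfl⟩)
      intro h
      exact hs (h ▸ he)
    · intro hs
      by_contra he
      refine hc _ hs e he (cyc_adj.2 ⟨?_, Or.inr rfl⟩)
      intro h
      exact he (h ▸ hs)
  refine h3 X hX hX' hcl ?_
  refine Set.Finite.of_finite_image (f := fun p : E × E => s(p.1, p.2)) (hb.subset ?_) ?_
  · rintro _ ⟨⟨a, b⟩, ⟨ha, hb', hx⟩, rfl⟩
    have hne : a ≠ b := by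
      rintro rfl
      exact hb' ha
    exact ⟨hH a b hne hx, ⟨a, by simp, ha⟩, ⟨b, by simp, hb'⟩⟩
  · rintro ⟨a, b⟩ ⟨ha, hb', _⟩ ⟨c, d⟩ ⟨hc', hd, _⟩ h
    have h' : s(a, b) = s(c, d) := h
    rw [Sym2.eq_iff] at h'
    rcases h' with ⟨rfl, rfl⟩ | ⟨rfl, rfl⟩
    · rfl
    · exact absurd ha hd

/-- the two ends of one edge of `R` are joined in `Gr ends R` -/
theorem reach_in {R : Set E} {a : E} (ha : a ∈ R) {x y : V} (hx : x ∈ ends a) (hy : y ∈ ends a) :
    (Gr ends R).Reachable x y := by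
  by_cases hxy : x = y
  · rw [hxy]
  · refine SimpleGraph.Adj.reachable ?_
    have he : ends a = s(x, y) := (Sym2.mem_and_mem_iff hxy).1 ⟨hx, hy⟩
    unfold Gr
    rw [SimpleGraph.fromEdgeSet_adj]
    exact ⟨⟨a, ha, he⟩, hxy⟩

theorem mem_self {R : Set E} {e : E} (he : e ∈ R) : e ∈ compE ends R e := by
  obtain ⟨x, hx⟩ := mem_ex (ends e)
  exact ⟨he, x, hx, x, hx, SimpleGraph.Reachable.refl _⟩

/-- an edge at a vertex reachable from a vertex of an element of the component is in the component -/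
theorem mem_comp {R : Set E} {e a g : E} (ha : a ∈ compE ends R e) (hg : g ∈ R) {x y : V}
    (hx : x ∈ ends a) (hy : y ∈ ends g) (h : (Gr ends R).Reachable x y) : g ∈ compE ends R e := by
  obtain ⟨haR, x0, hx0, y0, hy0, hr⟩ := ha
  exact ⟨hg, x0, hx0, y, hy, (hr.trans (reach_in haR hy0 hx)).trans h⟩

theorem conn_step {H : SimpleGraph E}
    (hH : ∀ e f, e ≠ f → (∃ x, x ∈ ends e ∧ x ∈ ends f) → H.Adj e f) {Z : Set E} {a b : E}
    (ha : a ∈ Z) (hb : b ∈ Z) {x : V} (hx : x ∈ ends a) (hx' : x ∈ ends b) :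
    (SimpleGraph.fromEdgeSet (ins H Z)).Reachable a b := by
  by_cases hab : a = b
  · rw [hab]
  · refine SimpleGraph.Adj.reachable ?_
    rw [SimpleGraph.fromEdgeSet_adj]
    refine ⟨⟨hH a b hab ⟨x, hx, hx'⟩, ?_⟩, hab⟩
    intro v hv
    rcases Sym2.mem_iff.1 hv with rfl | rfl
    · exact ha
    · exact hb

theorem conn_walk {H : SimpleGraph E}
    (hH : ∀ e f, e ≠ f → (∃ x, x ∈ ends e ∧ x ∈ ends f) → H.Adj e f) {R : Set E} {e : E} {x y : V}
    (w : (Gr ends R).Walk x y) : ∀ a ∈ compE ends R e, x ∈ ends a → ∀ b ∈ compE ends R e,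
      y ∈ ends b → (SimpleGraph.fromEdgeSet (ins H (compE ends R e))).Reachable a b := by
  induction w with
  | nil =>
    intro a ha hx b hb hy
    exact conn_step hH ha hb hx hy
  | @cons x x' y hadj w ih =>
    intro a ha hx b hb hy
    have hadj' := hadj
    unfold Gr at hadj'
    rw [SimpleGraph.fromEdgeSet_adj] at hadj'
    obtain ⟨⟨g, hgR, hg⟩, _⟩ := hadj'
    have hxg : x ∈ ends g := by rw [hg]; simp
    have hxg' : x' ∈ ends g := by rw [hg]; simp
    have hgZ : g ∈ compE ends R e := mem_comp ha hgR hx hxg (SimpleGraph.Reachable.refl _)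
    exact (conn_step hH ha hgZ hx hxg).trans (ih g hgZ hxg' b hb hy)

theorem comp_conn {H : SimpleGraph E}
    (hH : ∀ e f, e ≠ f → (∃ x, x ∈ ends e ∧ x ∈ ends f) → H.Adj e f) {R : Set E} {e : E}
    (he : e ∈ R) : ∀ a ∈ compE ends R e, ∀ b ∈ compE ends R e,
      (SimpleGraph.fromEdgeSet (ins H (compE ends R e))).Reachable a b := by
  intro a ha b hb
  have ha' := ha
  have hb' := hb
  obtain ⟨_, x0, hx0, x, hx, hr⟩ := ha'
  obtain ⟨_, y0, hy0, y, hy, hs⟩ := hb'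
  obtain ⟨w⟩ : (Gr ends R).Reachable x y := (hr.symm.trans (reach_in he hx0 hy0)).trans hs
  exact conn_walk hH w a ha hx b hb hy

/-- the boundary of a component in the line graph is finite -/
theorem comp_bd {H : SimpleGraph E} (hf : ∀ e, (H.neighborSet e).Finite) {P M : Set E}
    (hP : P.Finite) (hM : M.Finite)
    (hPM : ∀ g h, g ∉ M → h ∉ M → H.Adj g h → ∀ x ∈ ends g, ∀ y ∈ ends h,
      (Gr ends Pᶜ).Reachable x y) (e : E) : (bd H (compE ends Pᶜ e)).Finite := by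
  refine ((hM.union hP).biUnion (fun g _ => (hf g).image (fun h => s(g, h)))).subset ?_
  intro z hz
  obtain ⟨hzH, ⟨g, hg, hgZ⟩, ⟨h, hh, hhZ⟩⟩ := hz
  have hne : g ≠ h := by
    rintro rfl
    exact hhZ hgZ
  have hz' : z = s(g, h) := (Sym2.mem_and_mem_iff hne).1 ⟨hg, hh⟩
  subst hz'
  have hadj : H.Adj g h := hzH
  by_cases h1 : g ∈ M ∪ P
  · exact Set.mem_biUnion h1 ⟨h, hadj, rfl⟩
  · by_cases h2 : h ∈ M ∪ P
    · exact Set.mem_biUnion h2 ⟨g, hadj.symm, Sym2.eq_swap⟩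
    · exfalso
      apply hhZ
      obtain ⟨x, hx⟩ := mem_ex (ends g)
      obtain ⟨y, hy⟩ := mem_ex (ends h)
      exact mem_comp hgZ (fun hh' => h2 (Or.inr hh')) hx hy
        (hPM g h (fun hh' => h1 (Or.inl hh')) (fun hh' => h2 (Or.inl hh')) hadj x hx y hy)

theorem cyc_bd {succ : E → E} (h2 : ∀ e, succ (succ e) ≠ e) (Z : Set E)
    (ha : ∃! a, a ∉ Z ∧ succ a ∈ Z) (hb : ∃! b, b ∈ Z ∧ succ b ∉ Z) :
    (bd (cyc succ) Z).ncard = 2 := by
  obtain ⟨a, ⟨ha1, ha2⟩, ha3⟩ := ha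
  obtain ⟨b, ⟨hb1, hb2⟩, hb3⟩ := hb
  have h : bd (cyc succ) Z = {s(a, succ a), s(b, succ b)} := by
    ext z
    simp only [Set.mem_insert_iff, Set.mem_singleton_iff]
    constructor
    · rintro ⟨hz, ⟨g, hg, hgZ⟩, ⟨h, hh, hhZ⟩⟩
      have hne : g ≠ h := by
        rintro rfl
        exact hhZ hgZ
      have hz' : z = s(g, h) := (Sym2.mem_and_mem_iff hne).1 ⟨hg, hh⟩
      subst hz'
      have hadj : (cyc succ).Adj g h := hz
      rcases (cyc_adj.1 hadj).2 with h1 | h1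
      · right
        have hgb : g = b := hb3 g ⟨hgZ, by rw [← h1]; exact hhZ⟩
        rw [h1, hgb]
      · left
        have hha : h = a := ha3 h ⟨hhZ, by rw [← h1]; exact hgZ⟩
        rw [h1, hha]
        exact Sym2.eq_swap
    · rintro (rfl | rfl)
      · refine ⟨?_, ⟨succ a, by simp, ha2⟩, ⟨a, by simp, ha1⟩⟩
        have : (cyc succ).Adj a (succ a) := cyc_adj.2 ⟨fun hh => ha1 (hh ▸ ha2), Or.inl rfl⟩
        exact this
      · refine ⟨?_, ⟨b, by simp, hb1⟩, ⟨succ b, by simp, hb2⟩⟩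
        have : (cyc succ).Adj b (succ b) := cyc_adj.2 ⟨fun hh => hb2 (hh ▸ hb1), Or.inl rfl⟩
        exact this
  rw [h]
  refine Set.ncard_pair ?_
  intro h'
  rw [Sym2.eq_iff] at h'
  rcases h' with ⟨h1, _⟩ | ⟨h1, h4⟩
  · exact ha1 (h1 ▸ hb1)
  · apply h2 b
    rw [← h1]
    exact h4

end gen

section fin
variable {V : Type u} {G : SimpleGraph V}

theorem inc_fin (hlf : ∀ v, (G.neighborSet v).Finite) (v : V) :
    {f : G.edgeSet | v ∈ (f : Sym2 V)}.Finite := by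
  refine Set.Finite.of_finite_image (f := fun f : G.edgeSet => (f : Sym2 V)) ?_
    Subtype.val_injective.injOn
  refine ((hlf v).image (fun w => s(v, w))).subset ?_
  rintro _ ⟨⟨z, hz⟩, hv, rfl⟩
  have hv' : v ∈ z := hv
  obtain ⟨w, rfl⟩ := hv'
  exact ⟨w, hz, rfl⟩

theorem nb_fin (hlf : ∀ v, (G.neighborSet v).Finite) (e : G.edgeSet) :
    (G.lineGraph.neighborSet e).Finite := by
  refine (touch_fin (ends := fun f : G.edgeSet => (f : Sym2 V)) (inc_fin hlf) e).subset ?_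
  intro f hf
  exact (SimpleGraph.lineGraph_adj_iff_exists.1 hf).2

theorem adj_ex {u v : V} (h : G.Reachable u v) (huv : u ≠ v) : ∃ w, G.Adj u w := by
  obtain ⟨w⟩ := h
  cases w with
  | nil => exact absurd rfl huv
  | cons h _ => exact ⟨_, h⟩

theorem edge_inf [Infinite V] (hc : ∀ u v, G.Reachable u v) : Infinite G.edgeSet := by
  by_contra hcon
  rw [not_infinite_iff_finite] at hcon
  have huniv : (Set.univ : Set V).Finite := by
    refine (Set.finite_iUnion (fun e : G.edgeSet => mem_fin (e : Sym2 V))).subset ?_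
    intro v _
    obtain ⟨u, hu⟩ := exists_ne v
    obtain ⟨w, hw⟩ := adj_ex (hc v u) hu.symm
    exact Set.mem_iUnion.2 ⟨⟨s(v, w), hw⟩, by simp⟩
  exact Set.infinite_univ huniv

theorem edge_ctb (hlf : ∀ v, (G.neighborSet v).Finite) (hc : ∀ u v, G.Reachable u v) :
    Countable G.edgeSet := by
  haveI := countable_of_conn G hlf hc
  have hs : Function.Surjective (fun p : V × V => s(p.1, p.2)) := by
    intro z
    induction z using Sym2.ind with
    | _ a b => exact ⟨(a, b), rfl⟩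
  haveI : Countable (Sym2 V) := hs.countable
  infer_instance

end fin

theorem s_HAM (hE : S_ENDS.{u}) (hU : S_EUL.{u, u}) : S_HAM.{u} := by
  intro V _ G h4 hgood
  obtain ⟨ends, he1, hEul, he3⟩ := hE V G h4 hgood
  haveI := edge_inf h4.conn
  haveI := edge_ctb h4.lf h4.conn
  obtain ⟨succ, hbij, hcom, h3, hP⟩ := hU G.edgeSet V ends hEul
  have hs1 := succ_ne hEul.fin hbij.injective h3
  have hs2 := succ2_ne hEul.fin hbij.injective h3
  have hH : ∀ e f, e ≠ f → (∃ x, x ∈ ends e ∧ x ∈ ends f) → G.lineGraph.Adj e f := by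
    rintro e f hef ⟨x, hx, hx'⟩
    exact SimpleGraph.lineGraph_adj_iff_exists.2 ⟨hef, x, he1 e x hx, he1 f x hx'⟩
  refine ⟨cyc succ, ?_, cyc_deg hbij hs1 hs2, ?_, ?_⟩
  · intro a b hab
    obtain ⟨hne, h | h⟩ := cyc_adj.1 hab
    · obtain ⟨x, hx, hx'⟩ := hcom a
      exact hH a b hne ⟨x, hx, h ▸ hx'⟩
    · obtain ⟨x, hx, hx'⟩ := hcom b
      exact hH a b hne ⟨x, h ▸ hx', hx⟩
  · intro X hX hX' hb
    exact cyc_meet G.lineGraph hH h3 X hX hX' hb
  · intro r hr S hS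
    obtain ⟨P, hPf, hSP, hPc⟩ := hP S hS
    obtain ⟨K, hKf, hK⟩ := he3 P hPf
    set M : Set G.edgeSet := {g | ∃ x ∈ (g : Sym2 V), x ∈ K} with hMdef
    have hMf : M.Finite := by
      refine (hKf.biUnion (fun x _ => inc_fin h4.lf x)).subset ?_
      rintro g ⟨x, hx, hxK⟩
      exact Set.mem_biUnion hxK hx
    have hone : ∀ g : G.edgeSet, g ∉ M → ∀ x ∈ (g : Sym2 V), ∀ y ∈ (g : Sym2 V),
        (SimpleGraph.fromEdgeSet (ins G Kᶜ)).Reachable x y := by
      intro g hg x hx y hy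
      by_cases hxy : x = y
      · rw [hxy]
      · refine SimpleGraph.Adj.reachable ?_
        rw [SimpleGraph.fromEdgeSet_adj]
        have hz : (g : Sym2 V) = s(x, y) := (Sym2.mem_and_mem_iff hxy).1 ⟨hx, hy⟩
        rw [← hz]
        refine ⟨⟨g.2, ?_⟩, hxy⟩
        intro v hv hvK
        exact hg ⟨v, hv, hvK⟩
    have hPM : ∀ g h, g ∉ M → h ∉ M → G.lineGraph.Adj g h → ∀ x ∈ ends g, ∀ y ∈ ends h,
        (Gr ends Pᶜ).Reachable x y := by
      intro g h hg hh hadj x hx y hy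
      obtain ⟨_, v, hv, hv'⟩ := SimpleGraph.lineGraph_adj_iff_exists.1 hadj
      have hx' := he1 g x hx
      have hy' := he1 h y hy
      refine hK x (fun hxK => hg ⟨x, hx', hxK⟩) y (fun hyK => hh ⟨y, hy', hyK⟩) ?_
      exact (hone g hg x hx' v hv).trans (hone h hh v hv' y hy')
    -- the ray leaves `M ∪ P`
    obtain ⟨N, hN⟩ : ∃ N, ∀ n, N ≤ n → r n ∉ M ∪ P := by
      have hfin : {n | r n ∈ M ∪ P}.Finite :=
        (hMf.union hPf).preimage hr.1.injOn
      obtain ⟨N, hN⟩ := hfin.bddAbove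
      refine ⟨N + 1, fun n hn hmem => ?_⟩
      have := hN hmem
      omega
    have heP : r N ∉ P := fun h => hN N le_rfl (Or.inr h)
    obtain ⟨_, hca, hcb⟩ := hPc (r N) heP
    refine ⟨compE ends Pᶜ (r N), ?_, comp_bd (nb_fin h4.lf) hPf hMf hPM (r N),
      comp_conn hH heP, ⟨N, ?_⟩, cyc_bd hs2 _ hca hcb⟩
    · rw [Set.disjoint_left]
      intro a ha haS
      exact ha.1 (hSP haS)
    · intro n hn
      induction n, hn using Nat.le_induction with
      | base => exact mem_self heP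
      | succ n hn ih =>
        obtain ⟨x, hx⟩ := mem_ex (ends (r n))
        obtain ⟨y, hy⟩ := mem_ex (ends (r (n + 1)))
        refine mem_comp ih (fun h => hN (n + 1) (by omega) (Or.inr h)) hx hy ?_
        exact hPM _ _ (fun h => hN n hn (Or.inl h)) (fun h => hN (n + 1) (by omega) (Or.inl h))
          (hr.2 n) x hx y hy

end Pool.Agent.L7h60.CE
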